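import Pool.Agent.H174.GM.Stmts

/-!
# Cancellation of three antisymmetrised sums
-/

set_option autoImplicit false

namespace Pool.Agent.H295.GM174

open Finset Pool.Agent.H174.GM

theorem mem_pairs_swap {k : ℕ} {i j : Fin k} (hij : i.1 + 1 = j.1) {p : Fin k × Fin k}
    (hp : p ∈ (pairs k).erase (i, j)) :
    (Equiv.swap i j p.1, Equiv.swap i j p.2) ∈ (pairs k).erase (i, j) := by
  obtain ⟨a, b⟩ := p
  simp only [pairs, mem_erase, mem_filter, mem_univ, true_and, ne_eq, Prod.mk.injEq,
    Equiv.swap_apply_def, Fin.lt_def, Fin.ext_iff, not_and] at hp ⊢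
  obtain ⟨h1, h2⟩ := hp
  split_ifs <;> constructor <;> omega

theorem rest_swap {R : Type} [CommRing R] {k : ℕ} {i j : Fin k} (hij : i.1 + 1 = j.1)
    (Y : Fin k → R) :
    ∏ p ∈ (pairs k).erase (i, j), mm (uu ((Y ∘ Equiv.swap i j) p.1)) ((Y ∘ Equiv.swap i j) p.2) =
      ∏ p ∈ (pairs k).erase (i, j), mm (uu (Y p.1)) (Y p.2) := by
  refine Finset.prod_bij' (fun p _ => (Equiv.swap i j p.1, Equiv.swap i j p.2))
    (fun p _ => (Equiv.swap i j p.1, Equiv.swap i j p.2))
    (fun p hp => mem_pairs_swap hij hp) (fun p hp => mem_pairs_swap hij hp) ?_ ?_ ?_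
  · intro p _
    simp
  · intro p _
    simp
  · intro p _
    rfl

theorem cc_eq {R : Type} [CommRing R] {k : ℕ} {i j : Fin k} (hij : i.1 + 1 = j.1)
    (Y : Fin k → R) :
    cc Y = mm (uu (Y i)) (Y j) * ∏ p ∈ (pairs k).erase (i, j), mm (uu (Y p.1)) (Y p.2) := by
  have hmem : (i, j) ∈ pairs k := by
    unfold pairs
    rw [mem_filter]
    refine ⟨mem_univ _, ?_⟩
    change i.1 < j.1
    omega
  unfold cc
  rw [← Finset.mul_prod_erase _ _ hmem]

theorem prod_update {R : Type} [CommRing R] {k : ℕ} (Y : Fin k → R) (a : Fin k → ℕ) (j : Fin k) :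
    ∏ l, Y l ^ (Function.update a j (a j + 1) l) = (∏ l, Y l ^ a l) * Y j := by
  have h1 : ∀ l, Y l ^ (Function.update a j (a j + 1) l) =
      Y l ^ a l * (if l = j then Y j else 1) := by
    intro l
    by_cases h : l = j
    · subst h
      rw [Function.update_self, if_pos rfl, pow_succ]
    · rw [Function.update_of_ne h, if_neg h, mul_one]
  rw [Finset.prod_congr rfl fun l _ => h1 l, Finset.prod_mul_distrib, Finset.prod_ite_eq',
    if_pos (mem_univ _)]

theorem star : S_STAR := by
  intro R _ k X a i j hij haij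
  have hne : i ≠ j := by
    intro h
    rw [h] at hij
    omega
  set G : (Fin k → R) → R := fun Y => ff a Y - ff (Function.update a j (a j + 1)) Y
    + ff (Function.update (Function.update a j (a j + 1)) i (a i + 1)) Y with hG
  have hGeq : ∀ Y : Fin k → R, G Y = (∏ l, Y l ^ a l) * cc Y * (1 - Y j + Y i * Y j) := by
    intro Y
    simp only [hG]
    unfold ff
    have h1 := prod_update Y a j
    have h2 := prod_update Y (Function.update a j (a j + 1)) i
    rw [Function.update_of_ne hne] at h2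
    rw [h2, h1]
    ring
  have hw : ∀ Y : Fin k → R, ∏ l, (Y ∘ Equiv.swap i j) l ^ a l = ∏ l, Y l ^ a l := by
    intro Y
    rw [← Equiv.prod_comp (Equiv.swap i j) (fun l => Y l ^ a l)]
    refine Finset.prod_congr rfl fun l _ => ?_
    rw [Function.comp_apply]
    congr 1
    rw [Equiv.swap_apply_def]
    split_ifs with c1 c2
    · rw [c1, haij]
    · rw [c2, haij]
    · rfl
  have hsw : ∀ Y : Fin k → R, G (Y ∘ Equiv.swap i j) = G Y := by
    intro Y
    rw [hGeq, hGeq, hw, cc_eq hij, cc_eq hij Y, rest_swap hij]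
    simp only [Function.comp_apply, Equiv.swap_apply_left, Equiv.swap_apply_right]
    unfold mm uu
    ring
  have hsum : aa a X - aa (Function.update a j (a j + 1)) X
      + aa (Function.update (Function.update a j (a j + 1)) i (a i + 1)) X =
      ∑ σ : Equiv.Perm (Fin k), (Equiv.Perm.sign σ : ℤ) • G (X ∘ σ) := by
    unfold aa
    rw [← Finset.sum_sub_distrib, ← Finset.sum_add_distrib]
    refine Finset.sum_congr rfl fun σ _ => ?_
    simp only [hG]
    rw [smul_add, smul_sub]
  rw [hsum]
  refine Finset.sum_involution (fun σ _ => σ * Equiv.swap i j) ?_ ?_ ?_ ?_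
  · intro σ _
    have h1 : X ∘ (σ * Equiv.swap i j : Equiv.Perm (Fin k)) = (X ∘ σ) ∘ Equiv.swap i j := rfl
    rw [h1, hsw, Equiv.Perm.sign_mul, Equiv.Perm.sign_swap hne]
    simp
  · intro σ _ _ h
    have h1 : Equiv.swap i j = 1 := by
      have := mul_left_cancel (h.trans (mul_one σ).symm)
      exact this
    exact hne (Equiv.swap_eq_one_iff.1 h1)
  · intro σ _
    exact mem_univ _
  · intro σ _
    rw [mul_assoc, Equiv.swap_mul_self, mul_one]

end Pool.Agent.H295.GM174
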