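import Pool.Agent.H174.GM.Stmts

/-!
# `psi` vanishes on wheels
-/

set_option autoImplicit false

namespace Pool.Agent.H295.GM174

open Finset Pool.Agent.H174.GM

theorem mm_fac {R : Type} [CommRing R] (a y : R) :
    mm (uu a) y = (1 - a * (1 - y)) * (1 - (1 - a) * (1 - y)) := by
  unfold mm uu
  ring

theorem uu_flp {R : Type} [CommRing R] {k : ℕ} (ε : Fin k → Bool) (X : Fin k → R) (i : Fin k) :
    uu (flp ε X i) = uu (X i) := by
  unfold flp uu
  split_ifs
  · ring
  · rfl

theorem wheel : S_WHEEL := by
  intro K _ k X i j l hij hil hjl h1 h2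
  have h3 : X l * (1 - X j) = 1 := by linear_combination X j * h2 - (X l - 1) * h1
  have h4 : (1 - X i) * (1 - X l) = 1 := by linear_combination h2
  -- the partner of a value
  have hpart : ∀ a ∈ ({i, j, l} : Finset (Fin k)), ∀ y : K, y = X a ∨ y = 1 - X a →
      ∃ b ∈ ({i, j, l} : Finset (Fin k)), b ≠ a ∧ mm (uu (X b)) y = 0 := by
    intro a ha y hy
    simp only [mem_insert, mem_singleton] at ha
    rcases ha with rfl | rfl | rfl
    · rcases hy with rfl | rfl
      · refine ⟨l, by simp, hil.symm, ?_⟩
        rw [mm_fac]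
        have : 1 - (1 - X l) * (1 - X a) = 0 := by linear_combination -h4
        rw [this, mul_zero]
      · refine ⟨j, by simp, hij.symm, ?_⟩
        rw [mm_fac]
        have : 1 - X j * (1 - (1 - X a)) = 0 := by linear_combination -h1
        rw [this, zero_mul]
    · rcases hy with rfl | rfl
      · refine ⟨l, by simp, hjl.symm, ?_⟩
        rw [mm_fac]
        have : 1 - X l * (1 - X a) = 0 := by linear_combination -h3
        rw [this, zero_mul]
      · refine ⟨i, by simp, hij, ?_⟩
        rw [mm_fac]
        have : 1 - X i * (1 - (1 - X a)) = 0 := by linear_combination -h1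
        rw [this, zero_mul]
    · rcases hy with rfl | rfl
      · refine ⟨i, by simp, hil, ?_⟩
        rw [mm_fac]
        have : 1 - (1 - X i) * (1 - X a) = 0 := by linear_combination -h4
        rw [this, mul_zero]
      · refine ⟨j, by simp, hjl, ?_⟩
        rw [mm_fac]
        have : 1 - (1 - X j) * (1 - (1 - X a)) = 0 := by linear_combination -h3
        rw [this, mul_zero]
  have hff : ∀ (ε : Fin k → Bool) (σ : Equiv.Perm (Fin k)), ff (st k) (flp ε X ∘ σ) = 0 := by
    intro ε σ
    obtain ⟨a, ha, hmax⟩ := Finset.exists_max_image ({i, j, l} : Finset (Fin k))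
      (fun b => σ.symm b) ⟨i, by simp⟩
    have hy : flp ε X a = X a ∨ flp ε X a = 1 - X a := by
      unfold flp
      split_ifs
      · exact Or.inr rfl
      · exact Or.inl rfl
    obtain ⟨b, hb, hba, h0⟩ := hpart a ha _ hy
    have hlt : σ.symm b < σ.symm a :=
      lt_of_le_of_ne (hmax b hb) fun h => hba (σ.symm.injective h)
    have hcc : cc (flp ε X ∘ σ) = 0 := by
      unfold cc
      refine Finset.prod_eq_zero (i := (σ.symm b, σ.symm a)) ?_ ?_
      · unfold pairs
        rw [mem_filter]
        exact ⟨mem_univ _, hlt⟩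
      · simp only [Function.comp_apply, Equiv.apply_symm_apply]
        rw [uu_flp]
        exact h0
    unfold ff
    rw [hcc, mul_zero]
  unfold psi br aa
  refine Finset.sum_eq_zero fun ε _ => ?_
  rw [Finset.sum_eq_zero fun σ _ => by rw [hff, smul_zero], smul_zero]

end Pool.Agent.H295.GM174
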